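import Pool.Agent.Helper69.MWF.Stmts
import Pool.Agent.Helper69.MWF.BasicT

/-!
# MP_80e84b_lc (S14965): Borel maps are continuous and computable with an oracle at generic points
-/

set_option autoImplicit false

open Topology Set Filter
open Nat.Partrec (Code)

namespace Pool.Agent.Helper83.MWF

open Pool.Agent.Helper95.MW Pool.Agent.Helper69.MWF

/-- open sets which agree with the sets `F x n = k` on a residual set -/
theorem exists_opens {F : ℕ → (ℕ → ℕ) → (ℕ → ℕ)} (hF : ∀ e, Measurable (F e)) :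
    ∃ O : ℕ → ℕ → ℕ → Set (ℕ → ℕ), (∀ e n k, IsOpen (O e n k)) ∧
      ∀ᶠ x in residual (ℕ → ℕ), ∀ e n k, F e x n = k ↔ x ∈ O e n k := by
  have h1 : ∀ e n k, ∃ u : Set (ℕ → ℕ), IsOpen u ∧
      ∀ᶠ x in residual (ℕ → ℕ), F e x n = k ↔ x ∈ u := by
    intro e n k
    have hm : MeasurableSet {x : ℕ → ℕ | F e x n = k} :=
      ((measurable_pi_apply n).comp (hF e)) (measurableSet_singleton k)
    obtain ⟨u, hu, he⟩ := hm.residualEq_isOpen
    refine ⟨u, hu, ?_⟩
    filter_upwards [he] with x hx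
    have : (F e x n = k) = (x ∈ u) := hx
    rw [this]
  choose O hO hO2 using h1
  refine ⟨O, hO, ?_⟩
  rw [eventually_countable_forall]
  intro e
  rw [eventually_countable_forall]
  intro n
  rw [eventually_countable_forall]
  intro k
  exact hO2 e n k

theorem mc : ST_MC := by
  intro F hF
  obtain ⟨O, hO, hr⟩ := exists_opens (F := fun _ => F) (fun _ => hF)
  refine ⟨_, hr, ?_⟩
  intro x hx n
  have h1 : ∀ i, ∃ m, Cy x m ⊆ O 0 i (F x i) := fun i =>
    exists_Cy_subset (hO 0 i (F x i)) ((hx 0 i (F x i)).1 rfl)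
  choose m hm using h1
  refine ⟨(Finset.range n).sup m, ?_⟩
  intro x' hx' hc i hi
  have h2 : m i ≤ (Finset.range n).sup m := Finset.le_sup (Finset.mem_range.2 hi)
  exact (hx' 0 i (F x i)).2 (hm i (Cy_mono h2 hc))

/-- a function with a graph enumerated by `r` -/
theorem le_of_graph {g r : ℕ → ℕ} (h1 : ∀ n k s, r (Nat.pair n (Nat.pair k s)) = 1 → k = g n)
    (h2 : ∀ n, ∃ s, r (Nat.pair n (Nat.pair (g n) s)) = 1) : LE g r := by
  obtain ⟨p, hp1, hp2, hp3⟩ := search (α := ℕ × ℕ × ℕ)
    (fun v => decide (v.2.2.getD (Nat.pair v.1 (Nat.pair v.2.1.1 v.2.1.2.1)) 0 = 1))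
    (by
      refine (PrimrecRel.decide Primrec.eq).comp ?_ (Primrec.const 1)
      refine (Primrec.list_getD 0).comp (Primrec.snd.comp Primrec.snd) ?_
      refine Primrec₂.natPair.comp Primrec.fst ?_
      exact Primrec₂.natPair.comp (Primrec.fst.comp (Primrec.fst.comp Primrec.snd))
        (Primrec.fst.comp (Primrec.snd.comp (Primrec.fst.comp Primrec.snd))))
    (fun T => T.2.2) (Primrec.snd.comp Primrec.snd)
    (fun v => v.2.1) (Primrec.fst.comp Primrec.snd) r
  rw [le_iff]
  refine hp1.of_eq_tot fun n => ?_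
  have h3 : (p n).Dom := by
    rw [← hp2 n]
    obtain ⟨s, hs⟩ := h2 n
    refine ⟨(g n, s, Nat.pair n (Nat.pair (g n) s) + 1), ?_⟩
    simp only [decide_eq_true_eq]
    have h4 : (ini r (Nat.pair n (Nat.pair (g n) s) + 1)).getD (Nat.pair n (Nat.pair (g n) s)) 0 =
        r (Nat.pair n (Nat.pair (g n) s)) := by
      simp [ini]
    rw [h4, hs]
  obtain ⟨k, hk⟩ := Part.dom_iff_mem.1 h3
  obtain ⟨⟨k', s, u⟩, h4, h5⟩ := hp3 n k hk
  simp only [decide_eq_true_eq] at h4
  have h6 : r (Nat.pair n (Nat.pair k' s)) = 1 := by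
    by_cases hu : Nat.pair n (Nat.pair k' s) < u
    · have h7 : (ini r u).getD (Nat.pair n (Nat.pair k' s)) 0 =
        r (Nat.pair n (Nat.pair k' s)) := by
        simp [ini, hu]
      rw [← h7]
      exact h4
    · have h7 : (ini r u).getD (Nat.pair n (Nat.pair k' s)) 0 = 0 := by
        simp [ini, hu]
      rw [h7] at h4
      exact absurd h4 (by norm_num)
  have h7 : k = g n := by
    rw [h5]
    exact h1 n k' s h6
  rw [← h7]
  exact hk

open Classical in
theorem bm : ST_BM := by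
  intro F hF
  obtain ⟨O, hO, hr⟩ := exists_opens hF
  set b : ℕ → ℕ := fun m => if ∀ y : ℕ → ℕ, ini y (dl m.unpair.2.unpair.2.unpair.2).length =
    dl m.unpair.2.unpair.2.unpair.2 → y ∈ O m.unpair.1 m.unpair.2.unpair.1
      m.unpair.2.unpair.2.unpair.1 then 1 else 0 with hb
  refine ⟨b, ?_⟩
  filter_upwards [hr] with x hx e
  set r : ℕ → ℕ := fun m => b (Nat.pair e (Nat.pair m.unpair.1 (Nat.pair m.unpair.2.unpair.1
    (ec (ini x m.unpair.2.unpair.2))))) with hrd
  have hrv : ∀ n k s, r (Nat.pair n (Nat.pair k s)) = 1 ↔ Cy x s ⊆ O e n k := by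
    intro n k s
    rw [hrd, hb]
    simp only [Nat.unpair_pair, dl_ec, ini_length]
    constructor
    · intro h y hy
      by_contra hc
      rw [if_neg (fun h' => hc (h' y (mem_Cy_iff.1 hy)))] at h
      exact zero_ne_one h
    · intro h
      rw [if_pos (fun y hy => h (mem_Cy_iff.2 hy))]
  have hle : LE r (jn b x) := by
    refine le_comp (le_jn_left b x) ?_
    refine le_pair (le_const e _) (le_pair (le_primrec (Primrec.fst.comp Primrec.unpair)) ?_)
    refine le_pair (le_primrec (Primrec.fst.comp (Primrec.unpair.comp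
      (Primrec.snd.comp Primrec.unpair)))) ?_
    refine le_comp (a := fun m => m.unpair.2.unpair.2) (le_ini (le_jn_right b x)) (le_primrec ?_)
    exact Primrec.snd.comp (Primrec.unpair.comp (Primrec.snd.comp Primrec.unpair))
  refine (le_of_graph (r := r) ?_ ?_).trans hle
  · intro n k s h
    have h1 := (hrv n k s).1 h (mem_Cy_self x s)
    exact ((hx e n k).2 h1).symm
  · intro n
    obtain ⟨s, hs⟩ := exists_Cy_subset (hO e n (F e x n)) ((hx e n (F e x n)).1 rfl)
    exact ⟨s, (hrv n _ s).2 hs⟩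

end Pool.Agent.Helper83.MWF
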